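import Pool.Agent.H207.TF.Stm

/-!
# Project TF, PUIS: from monic Puiseux to polynomials whose degree may drop
-/

set_option autoImplicit false

open Metric Set Filter Topology Polynomial

namespace Pool.Agent.H686.TF207

open Pool.Agent.H207.TF

/-- the reversed polynomial at `z₁` -/
noncomputable def rv (m : ℕ) (z₁ : ℂ) (w : ℂ[X]) : ℂ[X] :=
  ∑ j ∈ Finset.range (m + 1), C ((taylor z₁ w).coeff j) * X ^ (m - j)

theorem rv_eval {m : ℕ} {z₁ : ℂ} {w : ℂ[X]} (hw : w.natDegree ≤ m) {u : ℂ} (hu : u ≠ 0) :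
    (rv m z₁ w).eval u = u ^ m * w.eval (z₁ + 1 / u) := by
  have h1 : w.eval (z₁ + 1 / u) =
      ∑ j ∈ Finset.range (m + 1), (taylor z₁ w).coeff j * (1 / u) ^ j := by
    rw [← eval_eq_sum_range' (n := m + 1) (by rw [natDegree_taylor]; omega), taylor_eval, add_comm]
  rw [h1, Finset.mul_sum, rv, eval_finsetSum]
  refine Finset.sum_congr rfl fun j hj => ?_
  rw [Finset.mem_range] at hj
  have h2 : u ^ m = u ^ (m - j) * u ^ j := by
    rw [← pow_add]
    congr 1
    omega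
  rw [eval_mul, eval_C, eval_pow, eval_X, h2]
  have h3 : u ^ j ≠ 0 := pow_ne_zero _ hu
  rw [one_div, inv_pow]
  field_simp

theorem rv_coeff {m : ℕ} (z₁ : ℂ) (w : ℂ[X]) (i : ℕ) :
    (rv m z₁ w).coeff i = if i ≤ m then (taylor z₁ w).coeff (m - i) else 0 := by
  rw [rv, finsetSum_coeff]
  simp only [coeff_C_mul, coeff_X_pow]
  by_cases hi : i ≤ m
  · rw [if_pos hi, Finset.sum_eq_single (m - i)]
    · rw [if_pos (by omega), mul_one]
    · intro j hj hne
      rw [Finset.mem_range] at hj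
      rw [if_neg (by omega), mul_zero]
    · intro h
      exact absurd (Finset.mem_range.2 (by omega)) h
  · rw [if_neg hi]
    refine Finset.sum_eq_zero fun j _ => ?_
    rw [if_neg (by omega), mul_zero]

/-- the Taylor coefficients are linear combinations of the coefficients -/
theorem taylor_lin {m : ℕ} (z₁ : ℂ) {w : ℂ[X]} (hw : w.natDegree ≤ m) (j : ℕ) :
    (taylor z₁ w).coeff j =
      ∑ i ∈ Finset.range (m + 1), w.coeff i * (taylor z₁ (X ^ i : ℂ[X])).coeff j := by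
  conv_lhs => rw [as_sum_range' w (m + 1) (by omega), map_sum, finsetSum_coeff]
  refine Finset.sum_congr rfl fun i _ => ?_
  rw [← C_mul_X_pow_eq_monomial, ← smul_eq_C_mul, map_smul, coeff_smul, smul_eq_mul]

theorem t_PUIS (h : S_MPUI) : S_PUIS := by
  classical
  intro m w ρ hρ hdeg hdiff hw0
  -- the point
  obtain ⟨z₁, hz₁⟩ : ∃ z₁, (w 0).eval z₁ ≠ 0 := by
    by_contra hcon
    push Not at hcon
    exact hw0 (Polynomial.funext fun z => by rw [hcon z, eval_zero])
  have hev : ∀ z s : ℂ, ‖s‖ < ρ → DifferentiableAt ℂ (fun t => (w t).eval z) s := by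
    intro z s hs
    have h1 : (fun t => (w t).eval z) =ᶠ[𝓝 s]
        fun t => ∑ i ∈ Finset.range (m + 1), (w t).coeff i * z ^ i := by
      filter_upwards [isOpen_ball.mem_nhds (mem_ball_zero_iff.2 hs)] with t ht
      rw [mem_ball_zero_iff] at ht
      exact eval_eq_sum_range' (by have := hdeg t ht; omega) z
    refine DifferentiableAt.congr_of_eventuallyEq ?_ h1
    refine DifferentiableAt.fun_sum fun i _ => ?_
    exact (hdiff i s hs).mul_const _
  have hta : ∀ (j : ℕ) (s : ℂ), ‖s‖ < ρ →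
      DifferentiableAt ℂ (fun t => (taylor z₁ (w t)).coeff j) s := by
    intro j s hs
    have h1 : (fun t => (taylor z₁ (w t)).coeff j) =ᶠ[𝓝 s] fun t =>
        ∑ i ∈ Finset.range (m + 1), (w t).coeff i * (taylor z₁ (X ^ i : ℂ[X])).coeff j := by
      filter_upwards [isOpen_ball.mem_nhds (mem_ball_zero_iff.2 hs)] with t ht
      rw [mem_ball_zero_iff] at ht
      exact taylor_lin z₁ (hdeg t ht) j
    refine DifferentiableAt.congr_of_eventuallyEq ?_ h1
    refine DifferentiableAt.fun_sum fun i _ => ?_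
    exact (hdiff i s hs).mul_const _
  -- the radius
  obtain ⟨ρ', hρ', hρ'ρ, hg⟩ : ∃ ρ' > 0, ρ' ≤ ρ ∧ ∀ s : ℂ, ‖s‖ < ρ' → (w s).eval z₁ ≠ 0 := by
    have h0 : ‖(0 : ℂ)‖ < ρ := by rw [norm_zero]; exact hρ
    have h1 := (hev z₁ 0 h0).continuousAt.eventually_ne hz₁
    obtain ⟨r, hr, hr'⟩ := Metric.eventually_nhds_iff.1 h1
    refine ⟨min r ρ, lt_min hr hρ, min_le_right _ _, fun s hs => ?_⟩
    exact hr' (by rw [dist_zero_right]; exact hs.trans_le (min_le_left _ _))
  have hlead : ∀ s, (rv m z₁ (w s)).coeff m = (w s).eval z₁ := by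
    intro s
    rw [rv_coeff, if_pos le_rfl, Nat.sub_self, taylor_coeff_zero]
  have hrvdeg : ∀ s, (rv m z₁ (w s)).natDegree ≤ m := by
    intro s
    rw [natDegree_le_iff_coeff_eq_zero]
    intro N hN
    rw [rv_coeff, if_neg (by omega)]
  let W : ℂ → ℂ[X] := fun s => C ((w s).eval z₁)⁻¹ * rv m z₁ (w s)
  have hWcoeff : ∀ s i, (W s).coeff i = ((w s).eval z₁)⁻¹ * (rv m z₁ (w s)).coeff i := fun s i =>
    coeff_C_mul _
  have hWle : ∀ s, (W s).natDegree ≤ m := by
    intro s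
    rw [natDegree_le_iff_coeff_eq_zero]
    intro N hN
    rw [hWcoeff, coeff_eq_zero_of_natDegree_lt (lt_of_le_of_lt (hrvdeg s) hN), mul_zero]
  have hW1 : ∀ s, ‖s‖ < ρ' → (W s).coeff m = 1 := by
    intro s hs
    rw [hWcoeff, hlead, inv_mul_cancel₀ (hg s hs)]
  have hWd : ∀ s, ‖s‖ < ρ' → (W s).natDegree = m := by
    intro s hs
    refine le_antisymm (hWle s) (le_natDegree_of_ne_zero ?_)
    rw [hW1 s hs]
    exact one_ne_zero
  obtain ⟨K, hK, ζ', ε, hε, hζ', hroot⟩ := h m W ρ' hρ' (fun s hs => by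
    refine ⟨?_, hWd s hs⟩
    rw [Monic, leadingCoeff, hWd s hs, hW1 s hs]) (fun i s hs => by
    have hsρ : ‖s‖ < ρ := lt_of_lt_of_le hs hρ'ρ
    have e : (fun t => (W t).coeff i) = fun t => ((w t).eval z₁)⁻¹ *
        (if i ≤ m then (taylor z₁ (w t)).coeff (m - i) else 0) := by
      funext t
      rw [hWcoeff, rv_coeff]
    rw [e]
    refine ((hev z₁ s hsρ).inv (hg s hs)).mul ?_
    split_ifs
    · exact hta _ s hsρ
    · exact differentiableAt_const _)
  -- the roots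
  have hrv0 : ∀ a : ℂ, ‖a‖ < ε → ∀ i, (rv m z₁ (w (a ^ K))).eval (ζ' i a) = 0 := by
    intro a ha i
    obtain ⟨h1, h2⟩ := hroot a ha
    have h3 : (W (a ^ K)).eval (ζ' i a) = 0 := by
      rw [h2, eval_prod]
      refine Finset.prod_eq_zero (Finset.mem_univ i) ?_
      rw [eval_sub, eval_X, eval_C, sub_self]
    have h4 : (W (a ^ K)).eval (ζ' i a) =
        ((w (a ^ K)).eval z₁)⁻¹ * (rv m z₁ (w (a ^ K))).eval (ζ' i a) := by
      rw [eval_mul, eval_C]
    rw [h4] at h3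
    exact (mul_eq_zero.1 h3).resolve_left (inv_ne_zero (hg _ h1))
  have hroot2 : ∀ a u : ℂ, ‖a‖ < ε → (rv m z₁ (w (a ^ K))).eval u = 0 → ∃ i, u = ζ' i a := by
    intro a u ha hu
    obtain ⟨h1, h2⟩ := hroot a ha
    have h3 : (W (a ^ K)).eval u = 0 := by
      have h4 : (W (a ^ K)).eval u =
          ((w (a ^ K)).eval z₁)⁻¹ * (rv m z₁ (w (a ^ K))).eval u := by
        rw [eval_mul, eval_C]
      rw [h4, hu, mul_zero]
    rw [h2, eval_prod, Finset.prod_eq_zero_iff] at h3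
    obtain ⟨i, _, hi⟩ := h3
    refine ⟨i, ?_⟩
    rw [eval_sub, eval_X, eval_C] at hi
    exact sub_eq_zero.1 hi
  have hζ0 : ∀ i, DifferentiableAt ℂ (ζ' i) 0 := fun i => hζ' i 0 (by rw [norm_zero]; exact hε)
  -- reindexing
  let J := {i : Fin m // ζ' i 0 ≠ 0}
  let e : Fin (Fintype.card J) ≃ J := (Fintype.equivFin J).symm
  have hne : ∀ᶠ a in 𝓝 (0 : ℂ), ∀ i : J, ζ' i.1 a ≠ 0 := by
    rw [eventually_all]
    intro i
    exact (hζ0 i.1).continuousAt.eventually_ne i.2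
  obtain ⟨ε₁, hε₁, hne'⟩ := Metric.eventually_nhds_iff.1 hne
  let ζ : Fin (Fintype.card J) → ℂ → ℂ := fun i a => z₁ + 1 / ζ' (e i).1 a
  have hζc : ∀ i, ContinuousAt (ζ i) 0 := by
    intro i
    refine continuousAt_const.add (continuousAt_const.div ?_ (e i).2)
    exact (hζ0 (e i).1).continuousAt
  refine ⟨K, hK, Fintype.card J, ζ, min ε ε₁, lt_min hε hε₁, ?_, ?_⟩
  · intro i a ha
    have ha1 : ‖a‖ < ε := ha.trans_le (min_le_left _ _)
    have ha2 : ‖a‖ < ε₁ := ha.trans_le (min_le_right _ _)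
    have hn : ζ' (e i).1 a ≠ 0 := hne' (by rw [dist_zero_right]; exact ha2) (e i)
    have h1 := (hroot a ha1).1
    refine ⟨h1.trans_le hρ'ρ, ?_, ?_⟩
    · exact (differentiableAt_const _).add ((differentiableAt_const _).div (hζ' _ a ha1) hn)
    · have h2 := hrv0 a ha1 (e i).1
      rw [rv_eval (hdeg _ (h1.trans_le hρ'ρ)) hn] at h2
      exact (mul_eq_zero.1 h2).resolve_left (pow_ne_zero _ hn)
  · intro c
    set R : ℝ := ‖c - z₁‖ + 1 with hR
    have hR0 : 0 < R := by positivity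
    have hE : ∀ᶠ p : ℂ × ℂ in 𝓝 ((0 : ℂ), c), ‖p.1‖ < min ε ε₁ ∧ ‖p.2 - c‖ < 1 ∧
        (∀ i : Fin m, ζ' i 0 = 0 → ‖ζ' i p.1‖ < 1 / R) ∧
        ∀ i, ζ i 0 ≠ c → p.2 ≠ ζ i p.1 := by
      have hf : Tendsto (fun p : ℂ × ℂ => p.1) (𝓝 ((0 : ℂ), c)) (𝓝 0) := continuous_fst.tendsto _
      have hs : Tendsto (fun p : ℂ × ℂ => p.2) (𝓝 ((0 : ℂ), c)) (𝓝 c) := continuous_snd.tendsto _
      refine Eventually.and ?_ (Eventually.and ?_ (Eventually.and ?_ ?_))
      · have h1 : ∀ᶠ a : ℂ in 𝓝 0, ‖a‖ < min ε ε₁ := by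
          filter_upwards [ball_mem_nhds (0 : ℂ) (lt_min hε hε₁)] with a ha
          rwa [mem_ball_zero_iff] at ha
        exact hf.eventually h1
      · have h1 : ∀ᶠ z : ℂ in 𝓝 c, ‖z - c‖ < 1 := by
          filter_upwards [ball_mem_nhds c one_pos] with z hz
          rwa [mem_ball, dist_eq_norm] at hz
        exact hs.eventually h1
      · rw [eventually_all]
        intro i
        by_cases hi : ζ' i 0 = 0
        · have h1 : ∀ᶠ a : ℂ in 𝓝 0, ‖ζ' i a‖ < 1 / R := by
            have h2 : Tendsto (fun a => ‖ζ' i a‖) (𝓝 0) (𝓝 ‖ζ' i 0‖) :=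
              (hζ0 i).continuousAt.norm
            rw [hi, norm_zero] at h2
            exact h2.eventually (gt_mem_nhds (by positivity))
          filter_upwards [hf.eventually h1] with p hp _ using hp
        · exact Eventually.of_forall fun p h0 => absurd h0 hi
      · rw [eventually_all]
        intro i
        by_cases hi : ζ i 0 = c
        · exact Eventually.of_forall fun p h0 => absurd hi h0
        · have h1 : Tendsto (fun p : ℂ × ℂ => p.2 - ζ i p.1) (𝓝 ((0 : ℂ), c)) (𝓝 (c - ζ i 0)) :=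
            hs.sub ((hζc i).tendsto.comp hf)
          have h2 : ∀ᶠ p : ℂ × ℂ in 𝓝 ((0 : ℂ), c), p.2 - ζ i p.1 ≠ 0 :=
            h1.eventually_ne (sub_ne_zero.2 fun h => hi h.symm)
          filter_upwards [h2] with p hp _ h3
          exact hp (sub_eq_zero.2 h3)
    obtain ⟨η, hη, hη'⟩ := Metric.eventually_nhds_iff.1 hE
    refine ⟨η, hη, fun a z ha hz hzero => ?_⟩
    obtain ⟨h1, h2, h3, h4⟩ := hη' (y := (a, z)) (by
      rw [Prod.dist_eq, max_lt_iff, dist_zero_right, dist_eq_norm]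
      exact ⟨ha, hz⟩)
    have ha1 : ‖a‖ < ε := h1.trans_le (min_le_left _ _)
    have haK := (hroot a ha1).1
    have hzz : z - z₁ ≠ 0 := by
      intro h0
      rw [sub_eq_zero] at h0
      rw [h0] at hzero
      exact hg _ haK hzero
    have hu : (1 / (z - z₁)) ≠ 0 := one_div_ne_zero hzz
    obtain ⟨i, hi⟩ := hroot2 a (1 / (z - z₁)) ha1 (by
      rw [rv_eval (hdeg _ (haK.trans_le hρ'ρ)) hu, one_div_one_div, add_sub_cancel, hzero, mul_zero])
    have hi0 : ζ' i 0 ≠ 0 := by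
      intro h0
      have h5 := h3 i h0
      rw [← hi, norm_div, norm_one] at h5
      have h6 : ‖z - z₁‖ < R := by
        have : z - z₁ = (z - c) + (c - z₁) := by ring
        rw [this]
        refine (norm_add_le _ _).trans_lt ?_
        rw [hR]
        simp only at h2
        linarith
      have h7 : 0 < ‖z - z₁‖ := norm_pos_iff.2 hzz
      have h8 : 1 / R < 1 / ‖z - z₁‖ := one_div_lt_one_div_of_lt h7 h6
      linarith
    have hz' : z = ζ (e.symm ⟨i, hi0⟩) a := by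
      simp only [ζ, Equiv.apply_symm_apply]
      rw [← hi, one_div_one_div, add_sub_cancel]
    refine ⟨e.symm ⟨i, hi0⟩, ?_, hz'⟩
    by_contra hne0
    exact h4 _ hne0 hz'

end Pool.Agent.H686.TF207
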